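import Mathlib

/-!
# Mod `p` modularity for `G = SL_3`: definitions

The dual group of `SL_3` is `PGL_3`. A character `x` of the diagonal torus of `SL_3` is written as
`x : Fin 3 → ℤ`, standing for `diag(t₀,t₁,t₂) ↦ t₀^{x 0} t₁^{x 1} t₂^{x 2}`; the cocharacter `x^∨` of
the dual torus is `t ↦ diag(t^{x 0}, t^{x 1}, t^{x 2})` in `PGL_3`. The Borel subgroups are the upper
triangular ones. Places of `Qbar` are its valuation subrings.
-/

open Matrix

namespace Pool.SLT0

/-! ## The Galois side -/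

/-- `σ` is in the decomposition group of the place `A`. -/
def InDec (A : ValuationSubring (AlgebraicClosure ℚ))
    (σ : AlgebraicClosure ℚ ≃ₐ[ℚ] AlgebraicClosure ℚ) : Prop :=
  ∀ a, σ a ∈ A ↔ a ∈ A

/-- `σ` is in the inertia group of the place `A`: it acts trivially on the residue field. -/
def InInertia (A : ValuationSubring (AlgebraicClosure ℚ))
    (σ : AlgebraicClosure ℚ ≃ₐ[ℚ] AlgebraicClosure ℚ) : Prop :=
  InDec A σ ∧ ∀ a ∈ A, σ a - a ∈ A.nonunits

/-- `c` is a complex conjugation. -/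
def IsComplexConj (c : AlgebraicClosure ℚ ≃ₐ[ℚ] AlgebraicClosure ℚ) : Prop :=
  ∃ ι : AlgebraicClosure ℚ →+* ℂ, ∀ z, ι (c z) = (starRingEnd ℂ) (ι z)

/-- The matrix `b ∈ GL_3(k)` represents the element `g` of `PGL_3(k)`. -/
def Lifts {k : Type} [Field k] (b : GL (Fin 3) k) (g : ProjGenLinGroup (Fin 3) k) : Prop :=
  ProjGenLinGroup.mk b = g

/-- The `(i,j)` entry of `b ∈ GL_3(k)`. -/
def entry {k : Type} [Field k] (b : GL (Fin 3) k) (i j : Fin 3) : k := b.val i j

/-- The matrix `b` is upper triangular. -/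
def IsUpper {k : Type} [Field k] (b : GL (Fin 3) k) : Prop := ∀ i j : Fin 3, j < i → entry b i j = 0

/-- `t` is the trace of `Ad(b)` on the Lie algebra of `PGL_3`, that is on `M_3(k)` modulo the scalar
matrices. Since `Ad(b)` fixes the scalar matrices, this is the trace of `X ↦ b X b⁻¹` on `M_3(k)`
minus `1`. -/
def TraceAd {k : Type} [Field k] (b : GL (Fin 3) k) (t : k) : Prop :=
  ∃ T : Matrix (Fin 3) (Fin 3) k →ₗ[k] Matrix (Fin 3) (Fin 3) k,
    (∀ X, T X * b.val = b.val * X) ∧ LinearMap.trace k (Matrix (Fin 3) (Fin 3) k) T - 1 = t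

/-- `r` is continuous (for the Krull topology and the discrete topology): it is trivial on the
automorphisms which fix some finite set. -/
def IsContinuous {k : Type} [Field k]
    (r : (AlgebraicClosure ℚ ≃ₐ[ℚ] AlgebraicClosure ℚ) →* ProjGenLinGroup (Fin 3) k) : Prop :=
  ∃ s : Finset (AlgebraicClosure ℚ), ∀ σ, (∀ x ∈ s, σ x = x) → r σ = 1

/-- `r` is odd: for every complex conjugation `c`, the trace of `Ad(r(c))` on the Lie algebra of
`PGL_3` is `rank(G) - 2 rank(K) = 2 - 2 * 1`, for `G = SL_3` and `K = SO(3)`. -/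
def IsOdd {k : Type} [Field k]
    (r : (AlgebraicClosure ℚ ≃ₐ[ℚ] AlgebraicClosure ℚ) →* ProjGenLinGroup (Fin 3) k) : Prop :=
  ∀ c, IsComplexConj c → ∀ b : GL (Fin 3) k, Lifts b (r c) → TraceAd b ((2 - 2 * 1 : ℤ) : k)

/-- `r` is nearly ordinary of type `x` at `p`: for every place `A` of `Qbar` over `p`, some conjugate
of `r` restricted to the decomposition group takes values in the upper triangular Borel subgroup of
`PGL_3(k)`, and its projection to the torus is `x^∨ ∘ ω` on the inertia group: if `σ` acts on the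
`p`-th roots of unity as the `n`-th power then `ω(σ) = n`. -/
def NearlyOrdinary {k : Type} [Field k] (p : ℕ) (x : Fin 3 → ℤ)
    (r : (AlgebraicClosure ℚ ≃ₐ[ℚ] AlgebraicClosure ℚ) →* ProjGenLinGroup (Fin 3) k) : Prop :=
  ∀ A : ValuationSubring (AlgebraicClosure ℚ), (p : AlgebraicClosure ℚ) ∈ A.nonunits →
    ∃ g : ProjGenLinGroup (Fin 3) k,
      (∀ σ, InDec A σ → ∃ b, IsUpper b ∧ Lifts b (g * r σ * g⁻¹)) ∧
      ∀ σ, InInertia A σ → ∃ n : ℕ, (∀ ζ : AlgebraicClosure ℚ, ζ ^ p = 1 → σ ζ = ζ ^ n) ∧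
        ∃ b, IsUpper b ∧ Lifts b (g * r σ * g⁻¹) ∧ ∀ i, entry b i i = (n : k) ^ x i

/-- `r` is unramified at the prime `l`. -/
def UnramifiedAt {k : Type} [Field k] (l : ℕ)
    (r : (AlgebraicClosure ℚ ≃ₐ[ℚ] AlgebraicClosure ℚ) →* ProjGenLinGroup (Fin 3) k) : Prop :=
  ∀ A : ValuationSubring (AlgebraicClosure ℚ), (l : AlgebraicClosure ℚ) ∈ A.nonunits →
    ∀ σ, InInertia A σ → r σ = 1

/-- Some `r : Gal(Qbar/ℚ) → PGL_3(k)` satisfies all the hypotheses of the question for `SL_3`, the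
weight `x` and the empty set `S`. -/
def GaloisRep (p : ℕ) (x : Fin 3 → ℤ) (k : Type) [Field k] : Prop :=
  ∃ r : (AlgebraicClosure ℚ ≃ₐ[ℚ] AlgebraicClosure ℚ) →* ProjGenLinGroup (Fin 3) k,
    IsContinuous r ∧ IsOdd r ∧ NearlyOrdinary p x r ∧
      ∀ l : ℕ, l.Prime → l ≠ p → UnramifiedAt l r

/-! ## The automorphic side -/

/-- The weight `x` is strongly regular: it pairs to at least `2` with both simple coroots. -/
def StronglyRegular (x : Fin 3 → ℤ) : Prop := ∀ i j : Fin 3, i.val + 1 = j.val → 2 ≤ x i - x j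

/-- The matrices `R g`, `g ∈ SL_3(ℚ)`, are an irreducible algebraic representation of `SL_3` over
`ℚ` on `ℚ^m`, of highest weight `lam`: it is multiplicative, the entries of `R g` are polynomials in
the entries of `g`, there is no proper nonzero invariant subspace, and there is a nonzero vector
on which upper triangular matrices act through `lam`. -/
structure IsIrrep {m : ℕ} (R : SpecialLinearGroup (Fin 3) ℚ → Matrix (Fin m) (Fin m) ℚ)
    (lam : Fin 3 → ℤ) : Prop where
  one : R 1 = 1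
  mul : ∀ g h, R (g * h) = R g * R h
  algebraic : ∀ i j, ∃ P : MvPolynomial (Fin 3 × Fin 3) ℚ, ∀ g,
    R g i j = MvPolynomial.eval (fun t => g.val t.1 t.2) P
  irreducible : ∀ W : Submodule ℚ (Fin m → ℚ), (∀ g, ∀ v ∈ W, R g *ᵥ v ∈ W) → W = ⊥ ∨ W = ⊤
  highest : ∃ v, v ≠ 0 ∧ ∀ b, (∀ i j : Fin 3, j < i → b.val i j = 0) →
    R b *ᵥ v = (∏ i, b.val i i ^ lam i) • v

/-- `ℤ^m` is an `SL_3(ℤ)`-stable lattice in `ℚ^m`: for `g ∈ SL_3(ℤ)` the matrix `R g` is the integral
matrix `A g`. (Every stable lattice in a representation on a finite dimensional `V` is of this form,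
in coordinates with respect to a `ℤ`-basis of the lattice, which is a `ℚ`-basis of `V`.) -/
def IsIntegral {m : ℕ} (R : SpecialLinearGroup (Fin 3) ℚ → Matrix (Fin m) (Fin m) ℚ)
    (A : SpecialLinearGroup (Fin 3) ℤ → Matrix (Fin m) (Fin m) ℤ) : Prop :=
  ∀ g i j, R (g.map (Int.castRingHom ℚ)) i j = (A g i j : ℚ)

/-- The cohomology groups of `SL_3(ℤ)` with coefficients in `k^m = k ⊗ ℤ^m` vanish in all degrees,
`g ∈ SL_3(ℤ)` acting by the matrix `A g`. -/
def Acyclic {m : ℕ} (A : SpecialLinearGroup (Fin 3) ℤ → Matrix (Fin m) (Fin m) ℤ)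
    (k : Type) [Field k] : Prop :=
  ∃ τ : Representation k (SpecialLinearGroup (Fin 3) ℤ) (Fin m → k),
    (∀ g v i, τ g v i = ∑ j, (A g i j : k) * v j) ∧
    ∀ n : ℕ, Subsingleton (groupCohomology (Rep.of τ) n)

end Pool.SLT0
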