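import Pool.Agent.SL3.Final
import Pool.Agent.H95.SLT.Defs0

/-!
# `SL_3(ℤ)`: from lattices in coordinates to the theorem for lattices
-/

open Matrix TensorProduct CategoryTheory

namespace Pool.SLT0

open Pool.Agent.SL3 (SL3 redSL)

section Build

variable {m : ℕ} {R : SL3 ℚ → Matrix (Fin m) (Fin m) ℚ}

/-- The representation on `ℚ^m` given by the matrices `R g`. -/
def repOf (h1 : R 1 = 1) (hm : ∀ g h, R (g * h) = R g * R h) :
    Representation ℚ (SL3 ℚ) (Fin m → ℚ) where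
  toFun g := Matrix.mulVecLin (R g)
  map_one' := by
    apply LinearMap.ext
    intro v
    rw [h1]
    simp
  map_mul' g h := by
    apply LinearMap.ext
    intro v
    rw [hm]
    simp [Matrix.mulVec_mulVec]

theorem repOf_apply (h1 : R 1 = 1) (hm : ∀ g h, R (g * h) = R g * R h) (g : SL3 ℚ)
    (v : Fin m → ℚ) : repOf h1 hm g v = R g *ᵥ v := rfl

theorem isIrrep_repOf {lam : Fin 3 → ℤ} (h : IsIrrep R lam) :
    Pool.Agent.SL3.IsIrrepOfHighestWeight (repOf h.one h.mul) lam := by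
  refine ⟨inferInstance, ?_, ?_, ?_⟩
  · intro f x
    choose P hP using h.algebraic
    refine ⟨∑ i, ∑ j, MvPolynomial.C (f (Pi.single i 1) * x j) * P i j, fun g => ?_⟩
    rw [repOf_apply]
    have e1 : R g *ᵥ x = ∑ i, (R g *ᵥ x) i • (Pi.single i 1 : Fin m → ℚ) := by
      ext i
      simp [Finset.sum_apply, Pi.single_apply]
    rw [e1, map_sum]
    simp only [map_smul, smul_eq_mul, map_sum, map_mul, MvPolynomial.eval_C, Matrix.mulVec,
      dotProduct]
    refine Finset.sum_congr rfl fun i _ => ?_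
    rw [Finset.sum_mul]
    refine Finset.sum_congr rfl fun j _ => ?_
    rw [hP i j g]
    ring
  · obtain ⟨v, hv, _⟩ := h.highest
    have hnt : Nontrivial (Fin m → ℚ) := ⟨⟨v, 0, hv⟩⟩
    exact Pool.Agent.SL3.irr_of_forall (fun U hU => h.irreducible U hU)
  · obtain ⟨v, hv, hb⟩ := h.highest
    exact ⟨v, hv, fun b hbu => hb b hbu⟩

/-- The inclusion `ℤ^m → ℚ^m`. -/
def inc (m : ℕ) : (Fin m → ℤ) →ₗ[ℤ] (Fin m → ℚ) where
  toFun v i := (v i : ℚ)
  map_add' v w := by
    ext i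
    simp
  map_smul' c v := by
    ext i
    simp

theorem inc_inj (m : ℕ) : Function.Injective (inc m) := by
  intro v w h
  ext i
  have := congrFun h i
  change ((v i : ℤ) : ℚ) = ((w i : ℤ) : ℚ) at this
  exact_mod_cast this

/-- The lattice `ℤ^m`. -/
def lat (m : ℕ) : Submodule ℤ (Fin m → ℚ) := LinearMap.range (inc m)

theorem isLattice_lat (m : ℕ) : Submodule.IsLattice ℚ (lat m) := by
  refine ⟨?_, ?_⟩
  · unfold lat
    rw [← Submodule.map_top]
    exact Submodule.FG.map _ Module.Finite.fg_top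
  · rw [Submodule.eq_top_iff']
    intro v
    have e1 : v = ∑ i, v i • (Pi.single i 1 : Fin m → ℚ) := by
      ext i
      simp [Finset.sum_apply, Pi.single_apply]
    rw [e1]
    refine Submodule.sum_mem _ fun i _ => Submodule.smul_mem _ _ (Submodule.subset_span ?_)
    refine ⟨Pi.single i 1, ?_⟩
    ext j
    change (((Pi.single i 1 : Fin m → ℤ) j : ℤ) : ℚ) = _
    by_cases hij : j = i
    · subst hij; simp
    · simp [hij]

variable {A : SL3 ℤ → Matrix (Fin m) (Fin m) ℤ}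

theorem act_inc (h1 : R 1 = 1) (hm : ∀ g h, R (g * h) = R g * R h) (hA : IsIntegral R A)
    (g : SL3 ℤ) (v : Fin m → ℤ) :
    repOf h1 hm (redSL ℚ g) (inc m v) = inc m (A g *ᵥ v) := by
  rw [repOf_apply]
  ext i
  change (R (redSL ℚ g) *ᵥ (inc m v)) i = (((A g *ᵥ v) i : ℤ) : ℚ)
  simp only [Matrix.mulVec, dotProduct, Int.cast_sum, Int.cast_mul]
  refine Finset.sum_congr rfl fun j _ => ?_
  have := hA g i j
  rw [← this]
  rfl

theorem latStable_lat (h1 : R 1 = 1) (hm : ∀ g h, R (g * h) = R g * R h)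
    (hA : IsIntegral R A) : Pool.Agent.SL3.LatStable (repOf h1 hm) (lat m) := by
  rintro g _ ⟨v, rfl⟩
  exact ⟨A g *ᵥ v, (act_inc h1 hm hA g v).symm⟩

theorem A_mul (hm : ∀ g h, R (g * h) = R g * R h) (hA : IsIntegral R A) (g h : SL3 ℤ) :
    A (g * h) = A g * A h := by
  ext i j
  have h0 := hA (g * h) i j
  have e : (g * h).map (Int.castRingHom ℚ)
      = g.map (Int.castRingHom ℚ) * h.map (Int.castRingHom ℚ) := map_mul (redSL ℚ) g h
  rw [e, hm, Matrix.mul_apply] at h0
  have : ((A (g * h) i j : ℤ) : ℚ) = (((A g * A h) i j : ℤ) : ℚ) := by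
    rw [← h0, Matrix.mul_apply, Int.cast_sum]
    refine Finset.sum_congr rfl fun l _ => ?_
    rw [hA g i l, hA h l j, Int.cast_mul]
  exact_mod_cast this

theorem A_one (h1 : R 1 = 1) (hA : IsIntegral R A) : A 1 = 1 := by
  ext i j
  have h0 := hA 1 i j
  have e : (1 : SL3 ℤ).map (Int.castRingHom ℚ) = 1 := map_one (redSL ℚ)
  rw [e, h1] at h0
  have : ((A 1 i j : ℤ) : ℚ) = (((1 : Matrix (Fin m) (Fin m) ℤ) i j : ℤ) : ℚ) := by
    rw [← h0]
    by_cases hij : i = j
    · subst hij; simp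
    · simp [hij]
  exact_mod_cast this

/-- The reduction of `ℤ^m`. -/
def red (k : Type) [Field k] (h1 : R 1 = 1) (hm : ∀ g h, R (g * h) = R g * R h)
    (hA : IsIntegral R A) : Representation k (SL3 ℤ) (Fin m → k) where
  toFun g := Matrix.mulVecLin ((A g).map (Int.castRingHom k))
  map_one' := by
    apply LinearMap.ext
    intro v
    rw [A_one h1 hA, Matrix.map_one _ (map_zero _) (map_one _)]
    simp
  map_mul' g h := by
    apply LinearMap.ext
    intro v
    rw [A_mul hm hA, Matrix.map_mul]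
    simp [Matrix.mulVec_mulVec]

theorem red_apply (k : Type) [Field k] (h1 : R 1 = 1) (hm : ∀ g h, R (g * h) = R g * R h)
    (hA : IsIntegral R A) (g : SL3 ℤ) (v : Fin m → k) (i : Fin m) :
    red k h1 hm hA g v i = ∑ j, (A g i j : k) * v j := rfl

/-- `k^m = k ⊗ ℤ^m`. -/
noncomputable def eqv (k : Type) [Field k] (m : ℕ) : (k ⊗[ℤ] (lat m)) ≃ₗ[k] (Fin m → k) :=
  (TensorProduct.AlgebraTensorModule.congr (LinearEquiv.refl k k)
    (LinearEquiv.ofInjective (inc m) (inc_inj m)).symm) ≪≫ₗ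
    (TensorProduct.piScalarRight ℤ k k (Fin m))

theorem eqv_tmul (k : Type) [Field k] (m : ℕ) (c : k) (v : Fin m → ℤ) (i : Fin m)
    (hv : inc m v ∈ lat m) : eqv k m (c ⊗ₜ ⟨inc m v, hv⟩) i = (v i : k) * c := by
  have e : (LinearEquiv.ofInjective (inc m) (inc_inj m)).symm ⟨inc m v, hv⟩ = v := by
    rw [LinearEquiv.symm_apply_eq]
    rfl
  change TensorProduct.piScalarRight ℤ k k (Fin m)
    (c ⊗ₜ ((LinearEquiv.ofInjective (inc m) (inc_inj m)).symm ⟨inc m v, hv⟩)) i = _
  rw [e]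
  simp [zsmul_eq_mul]

theorem acyclic_of {lam : Fin 3 → ℤ} (h1 : lam 0 - lam 1 = 2) (h2 : lam 1 - lam 2 = 1)
    (h : IsIrrep R lam) (hA : IsIntegral R A) (k : Type) [Field k] (p : ℕ) [CharP k p]
    (hp : p.Prime) (hp5 : 5 ≤ p) : Acyclic A k := by
  refine ⟨red k h.one h.mul hA, red_apply k h.one h.mul hA, fun n => ?_⟩
  have := isLattice_lat m
  have hL := latStable_lat h.one h.mul hA
  have hz := Pool.Agent.SL3.vanish_lattice h1 h2 (isIrrep_repOf h) (lat m) hL (k := k) p hp hp5 n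
  refine ModuleCat.subsingleton_of_isZero ?_
  refine Pool.Agent.SL3.isZero_of_equiv (eqv k m).symm ?_ n hz
  intro g x
  rw [LinearEquiv.symm_apply_eq]
  obtain ⟨y, rfl⟩ := (eqv k m).surjective x
  rw [LinearEquiv.symm_apply_apply]
  induction y using TensorProduct.induction_on with
  | zero => simp
  | add y z hy hz => rw [map_add, map_add, hy, hz, map_add, map_add]
  | tmul c x =>
    obtain ⟨_, v, rfl⟩ := x
    ext i
    have e0 : Pool.Agent.SL3.latRep k hL g (c ⊗ₜ ⟨inc m v, ⟨v, rfl⟩⟩)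
        = c ⊗ₜ ⟨inc m (A g *ᵥ v), ⟨A g *ᵥ v, rfl⟩⟩ := by
      rw [Pool.Agent.SL3.latRep_tmul]
      congr 1
      apply Subtype.ext
      exact act_inc h.one h.mul hA g v
    rw [e0, eqv_tmul, red_apply]
    simp only [eqv_tmul]
    simp only [Matrix.mulVec, dotProduct, Int.cast_sum, Int.cast_mul, Finset.sum_mul, mul_assoc]

end Build

end Pool.SLT0
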