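import Pool.Agent.H95.SLT.Conv
import Pool.Agent.H41.SLS.Final3

/-!
# `SL_3(ℤ)`: the theorem in coordinates implies the theorem for lattices
-/

open Matrix TensorProduct

namespace Pool.SLT

open Pool.Agent.SL3 (SL3 redSL)

section Equiv

variable {V : Type} [AddCommGroup V] [Module ℚ V] {m : ℕ}

/-- The matrices of a representation in coordinates. -/
noncomputable def matE (ρ : Representation ℚ (SL3 ℚ) V) (e : V ≃ₗ[ℚ] (Fin m → ℚ)) (g : SL3 ℚ) :
    Matrix (Fin m) (Fin m) ℚ :=
  LinearMap.toMatrix' (e.toLinearMap ∘ₗ (ρ g) ∘ₗ e.symm.toLinearMap)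

variable (ρ : Representation ℚ (SL3 ℚ) V) (e : V ≃ₗ[ℚ] (Fin m → ℚ))

theorem matE_apply (g : SL3 ℚ) (i j : Fin m) :
    matE ρ e g i j = e (ρ g (e.symm (Pi.single j 1))) i := by
  rw [matE, LinearMap.toMatrix'_apply]
  rfl

theorem matE_mulVec (g : SL3 ℚ) (v : Fin m → ℚ) : matE ρ e g *ᵥ v = e (ρ g (e.symm v)) := by
  rw [matE, LinearMap.toMatrix'_mulVec]
  rfl

theorem isIrrep_matE {lam : Fin 3 → ℤ} (h : Pool.Agent.SL3.IsIrrepOfHighestWeight ρ lam) :
    Pool.SLT0.IsIrrep (matE ρ e) lam := by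
  refine ⟨?_, ?_, ?_, ?_, ?_⟩
  · rw [matE, map_one]
    have : e.toLinearMap ∘ₗ (1 : Module.End ℚ V) ∘ₗ e.symm.toLinearMap = LinearMap.id := by
      apply LinearMap.ext
      intro v
      simp
    rw [this, LinearMap.toMatrix'_id]
  · intro g g'
    rw [matE, matE, matE, ← LinearMap.toMatrix'_comp, map_mul]
    congr 1
    apply LinearMap.ext
    intro v
    simp
  · intro i j
    obtain ⟨P, hP⟩ := h.algebraic ((LinearMap.proj i) ∘ₗ e.toLinearMap) (e.symm (Pi.single j 1))
    exact ⟨P, fun g => by rw [matE_apply]; exact hP g⟩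
  · intro W hW
    rcases Pool.Agent.SL3.irr_submodule h.irreducible (W.comap e.toLinearMap)
      (fun g x hx => by
        rw [Submodule.mem_comap] at hx ⊢
        have := hW g _ hx
        rw [matE_mulVec] at this
        have e1 : e.symm (e.toLinearMap x) = x := e.symm_apply_apply x
        rw [e1] at this
        exact this) with h3 | h3
    · left
      rw [Submodule.eq_bot_iff] at h3 ⊢
      intro w hw
      have h4 := h3 (e.symm w) (by
        rw [Submodule.mem_comap]
        change e (e.symm w) ∈ W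
        rw [LinearEquiv.apply_symm_apply]
        exact hw)
      have h5 := congrArg e h4
      rwa [LinearEquiv.apply_symm_apply, map_zero] at h5
    · right
      rw [Submodule.eq_top_iff'] at h3 ⊢
      intro w
      have h4 := h3 (e.symm w)
      rw [Submodule.mem_comap] at h4
      change e (e.symm w) ∈ W at h4
      rwa [LinearEquiv.apply_symm_apply] at h4
  · obtain ⟨v, hv, hb⟩ := h.highest
    refine ⟨e v, fun h0 => hv (e.map_eq_zero_iff.1 h0), fun b hbu => ?_⟩
    rw [matE_mulVec, LinearEquiv.symm_apply_apply, hb b hbu, map_smul]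

end Equiv

/-- The representation in coordinates, extended by zero. -/
noncomputable def extE {m : ℕ} (R0 : SL3 ℚ → Matrix (Fin m) (Fin m) ℚ)
    (g : Matrix (Fin 3) (Fin 3) ℚ) : Matrix (Fin m) (Fin m) ℚ :=
  if h : g.det = 1 then R0 ⟨g, h⟩ else 0

theorem extE_val {m : ℕ} (R0 : SL3 ℚ → Matrix (Fin m) (Fin m) ℚ) (g : SL3 ℚ) :
    extE R0 g.val = R0 g := by
  rw [extE, dif_pos g.2]
  rfl

open Pool.Agent.H41.SLS.Three in
/-- The new form implies the old form of the vanishing statement. -/
theorem old_of_new {lam : Fin 3 → ℤ} {k : Type} [Field k]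
    (hnew : ∀ (m : ℕ) (R : Matrix (Fin 3) (Fin 3) ℚ → Matrix (Fin m) (Fin m) ℚ)
        (A : SpecialLinearGroup (Fin 3) ℤ → Matrix (Fin m) (Fin m) ℤ),
        IsIrrep R lam → IsIntegral R A →
        ∀ (W : Type) [AddCommGroup W] [Module k W], Pool.SLT.Acyclic A k W)
    (V : Type) [AddCommGroup V] [Module ℚ V] : Vanishing lam V k := by
  intro ρ M hρ hM
  have hirr := isIrrep_to hρ
  have hlat : Submodule.IsLattice ℚ M := isLattice_of hM
  have hst : Pool.Agent.SL3.LatStable ρ M := hM.2.2
  have hfin : Module.Finite ℤ M := Module.Finite.iff_fg.2 hM.1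
  have hfree : Module.Free ℤ M := inferInstance
  have b : Module.Basis (Fin (Module.finrank ℤ M)) ℤ M := Module.finBasis ℤ M
  let B : Module.Basis (Fin (Module.finrank ℤ M)) ℚ V := b.extendOfIsLattice ℚ
  have hB : ∀ j, B j = (b j : V) := fun j => Module.Basis.extendOfIsLattice_apply ℚ b j
  let A : SL3 ℤ → Matrix (Fin (Module.finrank ℤ M)) (Fin (Module.finrank ℤ M)) ℤ :=
    fun g => LinearMap.toMatrix b b (Pool.Agent.SL3.latAct hst g)
  have hA : ∀ g j, (Pool.Agent.SL3.latAct hst g (b j)) = ∑ i, A g i j • b i := by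
    intro g j
    conv_lhs => rw [← b.sum_repr (Pool.Agent.SL3.latAct hst g (b j))]
    refine Finset.sum_congr rfl fun i _ => ?_
    have : A g i j = b.repr (Pool.Agent.SL3.latAct hst g (b j)) i := LinearMap.toMatrix_apply _ _ _ _ _
    rw [this]
  have hint : Pool.SLT0.IsIntegral (matE ρ B.equivFun) A := by
    intro g i j
    rw [matE_apply]
    have e1 : B.equivFun.symm (Pi.single j 1) = B j := by
      rw [LinearEquiv.symm_apply_eq, B.equivFun_apply, B.repr_self]
      ext i
      simp [Finsupp.single_apply, Pi.single_apply, eq_comm]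
    rw [e1, hB]
    have e2 : ρ (g.map (Int.castRingHom ℚ)) (b j : V)
        = ((Pool.Agent.SL3.latAct hst g (b j) : M) : V) := rfl
    rw [e2, hA]
    have e3 : ((∑ i, A g i j • b i : M) : V) = ∑ i, (A g i j : ℚ) • B i := by
      rw [Submodule.coe_sum]
      refine Finset.sum_congr rfl fun i _ => ?_
      rw [Submodule.coe_smul_of_tower, hB, Int.cast_smul_eq_zsmul]
    rw [e3, B.equivFun_apply, map_sum, Finsupp.finsetSum_apply]
    simp [Finsupp.single_apply]
  refine noCohomology_of (M := M) hst k (fun n => ?_)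
  refine hnew _ (extE (matE ρ B.equivFun)) A (of0 (extE_val _) (isIrrep_matE ρ _ hirr))
    ((integral_iff (extE_val _)).2 hint) (k ⊗[ℤ] M) (Algebra.TensorProduct.basis k b)
    (Pool.Agent.SL3.latRep k hst) ?_ n
  intro g j
  rw [Algebra.TensorProduct.basis_apply, Pool.Agent.SL3.latRep_tmul, hA, TensorProduct.tmul_sum]
  refine Finset.sum_congr rfl fun i _ => ?_
  rw [Algebra.TensorProduct.basis_apply, TensorProduct.tmul_smul, Int.cast_smul_eq_zsmul]

end Pool.SLT
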