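import Pool.Agent.SL3.Final
import Pool.Agent.H41.SLS.Bridge
import Pool.Agent.H95.SLT.Defs0

/-!
# `SL_3(ℤ)`: the Galois representation, and the lattice of rank 15 in coordinates
-/

open Matrix

namespace Pool.SLT0

open Pool.Agent.SL3 (SL3 redSL Qbar GQ PGL3 tens castZ act coordEquiv rbar)

section Galois

theorem galoisRep (p : ℕ) [Fact p.Prime] (k : Type) [Field k] [CharP k p] :
    GaloisRep p ![5, 2, 0] k := by
  refine ⟨rbar p k ![5, 2, 0], ?_, ?_, ?_, ?_⟩
  · obtain ⟨s, hs⟩ := Pool.Agent.H41.SLS.Three.continuous_finset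
      (Pool.Agent.SL3.rbar_continuous p k ![5, 2, 0] {1}) (by simp)
    exact ⟨s, fun σ hσ => hs σ hσ⟩
  · intro c hc b hb
    have h1 := Pool.Agent.SL3.rbar_odd p k c hc
    have hb' : ProjGenLinGroup.mk b = rbar p k ![5, 2, 0] c := hb
    rw [← hb', Pool.Agent.SL3.trace_Ad] at h1
    refine ⟨Pool.Agent.SL3.conjMat b, fun X => ?_, ?_⟩
    · rw [Pool.Agent.SL3.conjMat_apply, mul_assoc, ← Units.val_mul, inv_mul_cancel, Units.val_one,
        mul_one]
    · rw [Pool.Agent.SL3.trace_conjMat, h1]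
      norm_num
  · intro A hA
    obtain ⟨g, hg1, hg2⟩ := Pool.Agent.SL3.rbar_nearlyOrdinary p k ![5, 2, 0] A
      ((ValuationSubring.mem_nonunits_iff A).1 hA)
    refine ⟨g, fun σ hσ => hg1 σ (Pool.Agent.H41.SLS.Three.mem_dec hσ), fun σ hσ => ?_⟩
    obtain ⟨b, hb1, hb2, hb3⟩ := hg2 σ (Pool.Agent.H41.SLS.Three.mem_inertia hσ)
    refine ⟨((Pool.Agent.SL3.cyc p σ : (ZMod p)ˣ) : ZMod p).val,
      fun ζ hζ => Pool.Agent.SL3.cyc_spec p σ hζ, b, hb1, hb2, fun i => ?_⟩
    have h3 := hb3 i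
    change b.val i i = _
    rw [h3, Units.val_zpow_eq_zpow_val]
    congr 1
    change ZMod.castHom (dvd_refl p) k ((Pool.Agent.SL3.cyc p σ : (ZMod p)ˣ) : ZMod p) = _
    rw [ZMod.castHom_apply, ZMod.natCast_val]
  · intro l hl hlp A hA σ hσ
    exact Pool.Agent.SL3.rbar_unramified p k ![5, 2, 0] hl hlp A
      ((ValuationSubring.mem_nonunits_iff A).1 hA) σ (Pool.Agent.H41.SLS.Three.mem_inertia hσ)

end Galois

section Lattice

/-- Coordinates on `tens R`. -/
def ce (R : Type) [CommRing R] : tens R ≃ₗ[R] (Fin (3 * 5) → R) :=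
  (coordEquiv R) ≪≫ₗ (LinearEquiv.curry R R (Fin 3) (Fin 5)).symm ≪≫ₗ
    (LinearEquiv.funCongrLeft R R finProdFinEquiv.symm)

theorem ce_apply (R : Type) [CommRing R] (T : tens R) (t : Fin (3 * 5)) :
    ce R T t = coordEquiv R T (finProdFinEquiv.symm t).1 (finProdFinEquiv.symm t).2 := rfl

theorem ce_castZ (T : tens ℤ) (t : Fin (3 * 5)) : ce ℚ (castZ ℚ T) t = (ce ℤ T t : ℚ) := by
  rw [ce_apply, ce_apply]
  generalize (finProdFinEquiv.symm t) = u
  obtain ⟨l, a⟩ := u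
  change (![(castZ ℚ T).1 l (l + 1) (l + 1), (castZ ℚ T).1 l (l + 2) (l + 2),
    (castZ ℚ T).1 l (l + 1) (l + 2), (castZ ℚ T).1 l (l + 1) l, (castZ ℚ T).1 l (l + 2) l] :
      Fin 5 → ℚ) a = ((![T.1 l (l + 1) (l + 1), T.1 l (l + 2) (l + 2), T.1 l (l + 1) (l + 2),
    T.1 l (l + 1) l, T.1 l (l + 2) l] : Fin 5 → ℤ) a : ℚ)
  fin_cases a <;> rfl

/-- The matrices of the action. -/
def mat (R : Type) [CommRing R] (g : SL3 R) : Matrix (Fin (3 * 5)) (Fin (3 * 5)) R :=
  LinearMap.toMatrix' ((ce R).toLinearMap ∘ₗ (act R g) ∘ₗ (ce R).symm.toLinearMap)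

theorem mat_apply (R : Type) [CommRing R] (g : SL3 R) (i j : Fin (3 * 5)) :
    mat R g i j = ce R (act R g ((ce R).symm (Pi.single j 1))) i := by
  rw [mat, LinearMap.toMatrix'_apply]
  rfl

theorem mat_mulVec (R : Type) [CommRing R] (g : SL3 R) (v : Fin (3 * 5) → R) :
    mat R g *ᵥ v = ce R (act R g ((ce R).symm v)) := by
  rw [mat, LinearMap.toMatrix'_mulVec]
  rfl

theorem isIntegral_mat : IsIntegral (mat ℚ) (mat ℤ) := by
  intro g i j
  rw [mat_apply, mat_apply, ← ce_castZ, Pool.Agent.SL3.castZ_act]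
  have h : (ce ℚ).symm (Pi.single j 1) = castZ ℚ ((ce ℤ).symm (Pi.single j 1)) := by
    rw [LinearEquiv.symm_apply_eq]
    ext t
    rw [ce_castZ, LinearEquiv.apply_symm_apply]
    by_cases htj : t = j
    · subst htj; simp
    · simp [htj]
  rw [h]
  rfl

theorem isIrrep_mat {lam : Fin 3 → ℤ} (h1 : lam 0 - lam 1 = 2) (h2 : lam 1 - lam 2 = 1) :
    IsIrrep (mat ℚ) lam := by
  have h := Pool.Agent.SL3.act_isIrrep h1 h2
  refine ⟨?_, ?_, ?_, ?_, ?_⟩
  · rw [mat, map_one]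
    have : (ce ℚ).toLinearMap ∘ₗ (1 : Module.End ℚ (tens ℚ)) ∘ₗ (ce ℚ).symm.toLinearMap
        = LinearMap.id := by
      apply LinearMap.ext
      intro v
      simp
    rw [this, LinearMap.toMatrix'_id]
  · intro g g'
    rw [mat, mat, mat, ← LinearMap.toMatrix'_comp, map_mul]
    congr 1
    apply LinearMap.ext
    intro v
    simp
  · intro i j
    obtain ⟨P, hP⟩ := h.algebraic ((LinearMap.proj i) ∘ₗ (ce ℚ).toLinearMap)
      ((ce ℚ).symm (Pi.single j 1))
    exact ⟨P, fun g => by rw [mat_apply]; exact hP g⟩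
  · intro W hW
    rcases Pool.Agent.SL3.irr_submodule h.irreducible (W.comap (ce ℚ).toLinearMap)
      (fun g x hx => by
        rw [Submodule.mem_comap] at hx ⊢
        have := hW g _ hx
        rw [mat_mulVec] at this
        have e : (ce ℚ).symm ((ce ℚ).toLinearMap x) = x := (ce ℚ).symm_apply_apply x
        rw [e] at this
        exact this) with h3 | h3
    · left
      rw [Submodule.eq_bot_iff] at h3 ⊢
      intro w hw
      have h4 := h3 ((ce ℚ).symm w) (by
        rw [Submodule.mem_comap]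
        change ce ℚ ((ce ℚ).symm w) ∈ W
        rw [LinearEquiv.apply_symm_apply]
        exact hw)
      have h5 := congrArg (ce ℚ) h4
      rwa [LinearEquiv.apply_symm_apply, map_zero] at h5
    · right
      rw [Submodule.eq_top_iff'] at h3 ⊢
      intro w
      have h4 := h3 ((ce ℚ).symm w)
      rw [Submodule.mem_comap] at h4
      change ce ℚ ((ce ℚ).symm w) ∈ W at h4
      rwa [LinearEquiv.apply_symm_apply] at h4
  · obtain ⟨v, hv, hb⟩ := h.highest
    refine ⟨ce ℚ v, fun h0 => hv ((ce ℚ).map_eq_zero_iff.1 h0), fun b hbu => ?_⟩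
    rw [mat_mulVec, LinearEquiv.symm_apply_apply, hb b hbu, map_smul]

end Lattice

end Pool.SLT0
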