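import Pool.Agent.H95.SLT.Auto0
import Pool.Agent.H95.SLT.Exist0
import Pool.Agent.H95.SLT.Defs

/-!
# Mod `p` modularity fails for `SL_3`, for every prime `p ≥ 5`: the theorem in coordinates
-/

open Matrix

namespace Pool.SLT

open Pool.Agent.SL3 (SL3 redSL rbar)

section Irr

variable {m : ℕ}

theorem form_apply (f : (Fin m → ℚ) →ₗ[ℚ] ℚ) (w : Fin m → ℚ) :
    f w = ∑ i, f (Pi.single i 1) * w i := by
  have e1 : w = ∑ i, w i • (Pi.single i 1 : Fin m → ℚ) := by
    ext i
    simp [Finset.sum_apply, Pi.single_apply]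
  conv_lhs => rw [e1]
  rw [map_sum]
  refine Finset.sum_congr rfl fun i _ => ?_
  rw [map_smul, smul_eq_mul, mul_comm]

theorem sum_mulVec (l v : Fin m → ℚ) (M : Matrix (Fin m) (Fin m) ℚ) :
    ∑ i, ∑ j, l i * M i j * v j = ∑ i, l i * (M *ᵥ v) i := by
  refine Finset.sum_congr rfl fun i _ => ?_
  simp only [Matrix.mulVec, dotProduct, Finset.mul_sum, mul_assoc]

variable {R : Matrix (Fin 3) (Fin 3) ℚ → Matrix (Fin m) (Fin m) ℚ} {lam : Fin 3 → ℤ}

theorem to0 (h : IsIrrep R lam) : Pool.SLT0.IsIrrep (fun g : SL3 ℚ => R g.val) lam := by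
  obtain ⟨h1, h2, h3, h4, v, hv, hb⟩ := h
  refine ⟨h1, fun g g' => h2 g.val g'.val g.2 g'.2, ?_, ?_, ?_⟩
  · intro i j
    obtain ⟨P, hP⟩ := h3 i j
    exact ⟨P, fun g => hP g.val g.2⟩
  · intro W hW
    by_contra hcon
    rw [not_or] at hcon
    obtain ⟨hbot, htop⟩ := hcon
    obtain ⟨w, hw, hw0⟩ := W.ne_bot_iff.1 hbot
    obtain ⟨f, hf, hker⟩ := W.exists_le_ker_of_lt_top (lt_top_iff_ne_top.2 htop)
    obtain ⟨j, hj⟩ : ∃ j, w j ≠ 0 := by
      by_contra hc
      push Not at hc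
      exact hw0 (funext hc)
    obtain ⟨i, hi⟩ : ∃ i, f (Pi.single i 1) ≠ 0 := by
      by_contra hc
      push Not at hc
      apply hf
      apply LinearMap.ext
      intro x
      rw [form_apply]
      simp [hc]
    obtain ⟨g, hg, hne⟩ := h4 (fun i => f (Pi.single i 1)) w ⟨i, hi⟩ ⟨j, hj⟩
    apply hne
    rw [sum_mulVec, ← form_apply]
    exact hker (hW ⟨g, hg⟩ w hw)
  · refine ⟨v, fun h0 => ?_, fun b hbu => ?_⟩
    · obtain ⟨j, hj⟩ := hv
      exact hj (congrFun h0 j)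
    · funext i
      exact hb b.val b.2 (fun i j hij => hbu i j hij) i

theorem of0 {R0 : SL3 ℚ → Matrix (Fin m) (Fin m) ℚ} (hR : ∀ g : SL3 ℚ, R g.val = R0 g)
    (h : Pool.SLT0.IsIrrep R0 lam) : IsIrrep R lam := by
  refine ⟨?_, ?_, ?_, ?_, ?_⟩
  · have := hR 1
    rw [h.one] at this
    exact this
  · intro g g' hg hg'
    have e1 := hR (⟨g, hg⟩ * ⟨g', hg'⟩)
    have e2 := hR ⟨g, hg⟩
    have e3 := hR ⟨g', hg'⟩
    rw [h.mul, ← e2, ← e3] at e1
    exact e1
  · intro i j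
    obtain ⟨P, hP⟩ := h.algebraic i j
    refine ⟨P, fun g hg => ?_⟩
    have e1 := hR ⟨g, hg⟩
    have e2 := hP ⟨g, hg⟩
    rw [← e1] at e2
    exact e2
  · intro l v hl hv
    by_contra hcon
    push Not at hcon
    let W : Submodule ℚ (Fin m → ℚ) :=
      { carrier := {w | ∀ g : SL3 ℚ, ∑ i, l i * (R0 g *ᵥ w) i = 0}
        add_mem' := by
          intro a b ha hb g
          have e : ∀ i, l i * (R0 g *ᵥ (a + b)) i = l i * (R0 g *ᵥ a) i + l i * (R0 g *ᵥ b) i := by
            intro i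
            rw [Matrix.mulVec_add, Pi.add_apply, mul_add]
          simp only [e, Finset.sum_add_distrib, ha g, hb g, add_zero]
        zero_mem' := by
          intro g
          simp
        smul_mem' := by
          intro c a ha g
          have e : ∀ i, l i * (R0 g *ᵥ (c • a)) i = c * (l i * (R0 g *ᵥ a) i) := by
            intro i
            rw [Matrix.mulVec_smul, Pi.smul_apply, smul_eq_mul]
            ring
          simp only [e, ← Finset.mul_sum, ha g, mul_zero] }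
    have hW : ∀ g, ∀ w ∈ W, R0 g *ᵥ w ∈ W := by
      intro g w hw g'
      rw [Matrix.mulVec_mulVec, ← h.mul]
      exact hw (g' * g)
    have hvW : v ∈ W := by
      intro g
      have := hcon g.val g.2
      rw [sum_mulVec, hR] at this
      exact this
    rcases h.irreducible W hW with h5 | h5
    · obtain ⟨j, hj⟩ := hv
      rw [h5, Submodule.mem_bot] at hvW
      exact hj (congrFun hvW j)
    · obtain ⟨i, hi⟩ := hl
      have h6 : (Pi.single i 1 : Fin m → ℚ) ∈ W := by rw [h5]; exact Submodule.mem_top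
      have h7 := h6 1
      rw [h.one, Matrix.one_mulVec, Finset.sum_eq_single i] at h7
      · rw [Pi.single_eq_same, mul_one] at h7
        exact hi h7
      · intro b _ hb
        rw [Pi.single_eq_of_ne hb, mul_zero]
      · intro hh
        exact absurd (Finset.mem_univ _) hh
  · obtain ⟨v, hv, hb⟩ := h.highest
    refine ⟨v, ?_, ?_⟩
    · by_contra hc
      push Not at hc
      exact hv (funext hc)
    · intro b hb1 hbu i
      have e1 := hb ⟨b, hb1⟩ (fun i j hij => hbu i j hij)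
      have e2 := hR ⟨b, hb1⟩
      rw [← e2] at e1
      exact congrFun e1 i

theorem integral_iff {R0 : SL3 ℚ → Matrix (Fin m) (Fin m) ℚ} (hR : ∀ g : SL3 ℚ, R g.val = R0 g)
    {A : SL3 ℤ → Matrix (Fin m) (Fin m) ℤ} : IsIntegral R A ↔ Pool.SLT0.IsIntegral R0 A := by
  have key : ∀ (g : SL3 ℤ) (i j : Fin m),
      R (g.val.map Int.cast) i j = R0 (g.map (Int.castRingHom ℚ)) i j := by
    intro g i j
    rw [← hR]
    rfl
  constructor
  · intro h g i j
    rw [← key]
    exact h g i j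
  · intro h g i j
    rw [key]
    exact h g i j

end Irr

section Coh

theorem acyclic_of0 {m : ℕ} {A : SL3 ℤ → Matrix (Fin m) (Fin m) ℤ} {k : Type} [Field k]
    (h : Pool.SLT0.Acyclic A k) (W : Type) [AddCommGroup W] [Module k W] : Acyclic A k W := by
  intro e τ hτ n
  obtain ⟨τ0, h0, hn⟩ := h
  have := hn n
  refine ModuleCat.subsingleton_of_isZero ?_
  refine Pool.Agent.SL3.isZero_of_equiv (σ := τ0) e.equivFun ?_ n (ModuleCat.isZero_of_subsingleton _)
  intro g x
  have hl : e.equivFun.toLinearMap ∘ₗ τ g = τ0 g ∘ₗ e.equivFun.toLinearMap := by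
    refine e.ext fun j => ?_
    funext i
    rw [LinearMap.comp_apply, LinearMap.comp_apply, hτ g j]
    change e.equivFun (∑ i, (A g i j : k) • e i) i = τ0 g (e.equivFun (e j)) i
    rw [h0, map_sum, Finset.sum_apply]
    simp only [map_smul, Pi.smul_apply, smul_eq_mul, Module.Basis.equivFun_self, mul_ite, mul_one,
      mul_zero, Finset.sum_ite_eq, Finset.sum_ite_eq', Finset.mem_univ, if_true]
  exact LinearMap.congr_fun hl x

end Coh

section Galois

theorem galoisRep (p : ℕ) [Fact p.Prime] (k : Type) [Field k] [CharP k p] :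
    GaloisRep p ![5, 2, 0] k := by
  refine ⟨rbar p k ![5, 2, 0], ?_, ?_, ?_, ?_⟩
  · obtain ⟨s, hs⟩ := Pool.Agent.H41.SLS.Three.continuous_finset
      (Pool.Agent.SL3.rbar_continuous p k ![5, 2, 0] {1}) (by simp)
    exact ⟨s, fun σ hσ => hs σ hσ⟩
  · intro c hc b hb
    have h1 := Pool.Agent.SL3.rbar_odd p k c hc
    have hb' : ProjGenLinGroup.mk b = rbar p k ![5, 2, 0] c := hb
    rw [← hb', Pool.Agent.SL3.trace_Ad] at h1
    change b.val.trace * (b⁻¹).val.trace - 1 = _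
    rw [h1]
    norm_num
  · intro A hA
    obtain ⟨g, hg1, hg2⟩ := Pool.Agent.SL3.rbar_nearlyOrdinary p k ![5, 2, 0] A
      ((ValuationSubring.mem_nonunits_iff A).1 hA)
    refine ⟨g, fun σ hσ => hg1 σ (Pool.Agent.H41.SLS.Three.mem_dec hσ), fun σ hσ => ?_⟩
    obtain ⟨b, hb1, hb2, hb3⟩ := hg2 σ (Pool.Agent.H41.SLS.Three.mem_inertia hσ)
    refine ⟨((Pool.Agent.SL3.cyc p σ : (ZMod p)ˣ) : ZMod p).val,
      fun ζ hζ => Pool.Agent.SL3.cyc_spec p σ hζ, b, hb1, hb2, fun i => ?_⟩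
    have h3 := hb3 i
    change b.val i i = _
    rw [h3, Units.val_zpow_eq_zpow_val]
    congr 1
    change ZMod.castHom (dvd_refl p) k ((Pool.Agent.SL3.cyc p σ : (ZMod p)ˣ) : ZMod p) = _
    rw [ZMod.castHom_apply, ZMod.natCast_val]
  · intro l hl hlp A hA σ hσ
    exact Pool.Agent.SL3.rbar_unramified p k ![5, 2, 0] hl hlp A
      ((ValuationSubring.mem_nonunits_iff A).1 hA) σ (Pool.Agent.H41.SLS.Three.mem_inertia hσ)

/-- The formula for the trace is the trace on the quotient of `M_3(k)` by the scalar matrices. -/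
theorem traceAd_eq {k : Type} [Field k] (b : GL (Fin 3) k) :
    LinearMap.trace k (Pool.Agent.SL3.pgl3 k) (Pool.Agent.SL3.Ad (ProjGenLinGroup.mk b))
      = traceAd b :=
  Pool.Agent.SL3.trace_Ad b

end Galois

/-- The representation of rank 15, extended by zero. -/
noncomputable def matX (g : Matrix (Fin 3) (Fin 3) ℚ) :
    Matrix (Fin (3 * 5)) (Fin (3 * 5)) ℚ :=
  if h : g.det = 1 then Pool.SLT0.mat ℚ ⟨g, h⟩ else 0

theorem matX_val (g : SL3 ℚ) : matX g.val = Pool.SLT0.mat ℚ g := by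
  rw [matX, dif_pos g.2]
  rfl

theorem main (p : ℕ) (hp : p.Prime) (hp5 : 5 ≤ p) (k : Type) [Field k] [CharP k p] :
    ∃ x rho lam : Fin 3 → ℤ, x = ![5, 2, 0] ∧ rho = ![1, 0, -1] ∧ (∀ i, lam i = x i - rho i) ∧
      StronglyRegular x ∧ GaloisRep p x k ∧
      (∃ (m : ℕ) (R : Matrix (Fin 3) (Fin 3) ℚ → Matrix (Fin m) (Fin m) ℚ)
        (A : SpecialLinearGroup (Fin 3) ℤ → Matrix (Fin m) (Fin m) ℤ),
        IsIrrep R lam ∧ IsIntegral R A) ∧
      ∀ (m : ℕ) (R : Matrix (Fin 3) (Fin 3) ℚ → Matrix (Fin m) (Fin m) ℚ)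
        (A : SpecialLinearGroup (Fin 3) ℤ → Matrix (Fin m) (Fin m) ℤ),
        IsIrrep R lam → IsIntegral R A →
        ∀ (W : Type) [AddCommGroup W] [Module k W], Acyclic A k W := by
  refine ⟨![5, 2, 0], ![1, 0, -1], fun i => ![5, 2, 0] i - ![1, 0, -1] i, rfl, rfl,
    fun i => rfl, ?_, ?_, ?_, ?_⟩
  · intro i j hij
    fin_cases i <;> fin_cases j <;> simp_all
  · have : Fact p.Prime := ⟨hp⟩
    exact galoisRep p k
  · exact ⟨3 * 5, matX, Pool.SLT0.mat ℤ,
      of0 matX_val (Pool.SLT0.isIrrep_mat (by decide) (by decide)),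
      (integral_iff matX_val).2 Pool.SLT0.isIntegral_mat⟩
  · intro m R A hR hA W _ _
    exact acyclic_of0 (Pool.SLT0.acyclic_of (by decide) (by decide) (to0 hR)
      ((integral_iff (fun _ => rfl)).1 hA) k p hp hp5) W

end Pool.SLT
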